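import Pool.Agent.Helper42.RZ.Basic
import Pool.Agent.Helper42.RZ.St.S6b

/-! # RZ-S7: localisation of the energy -/

set_option autoImplicit false

open MeasureTheory Set Metric Filter Topology
open scoped ENNReal

namespace Pool.Agent.Helper35.RZ

open Pool.Agent.Helper42.RZ

/-! ## One dimensional integrals -/

theorem lintegral_gamma {a r : ℝ} (ha : 0 < a) (hr : 0 < r) :
    ∫⁻ w in Ioi (0 : ℝ), ENNReal.ofReal (w ^ (a - 1) * Real.exp (-w * r)) =
      ENNReal.ofReal (Real.Gamma a * r ^ (-a)) := by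
  have h := Real.integral_rpow_mul_exp_neg_mul_Ioi ha hr
  have hG : 0 < Real.Gamma a := Real.Gamma_pos_of_pos ha
  have hpos : 0 < (1 / r) ^ a * Real.Gamma a := by positivity
  have hint : Integrable (fun t : ℝ => t ^ (a - 1) * Real.exp (-(r * t)))
      (volume.restrict (Ioi 0)) := by
    by_contra hc
    rw [integral_undef hc] at h
    exact hpos.ne h
  have h2 : (fun w : ℝ => w ^ (a - 1) * Real.exp (-w * r)) =
      fun t : ℝ => t ^ (a - 1) * Real.exp (-(r * t)) := by
    funext w
    congr 2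
    ring
  have h3 : Real.Gamma a * r ^ (-a) = (1 / r) ^ a * Real.Gamma a := by
    rw [one_div, Real.inv_rpow hr.le, Real.rpow_neg hr.le, mul_comm]
  rw [h3, ← h, ofReal_integral_eq_lintegral_ofReal hint]
  · refine lintegral_congr fun w => ?_
    exact congrArg ENNReal.ofReal (congrFun h2 w)
  · refine (ae_restrict_iff' measurableSet_Ioi).2 (Filter.Eventually.of_forall fun w hw => ?_)
    have : 0 < w := hw
    positivity

theorem lintegral_log {V V' : ℝ} (hV : 0 < V) (hVV : V ≤ V') :
    ∫⁻ u in Ioo V V', ENNReal.ofReal (1 / u) = ENNReal.ofReal (Real.log (V' / V)) := by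
  have hV' : 0 < V' := lt_of_lt_of_le hV hVV
  have h1 : IntervalIntegrable (fun u : ℝ => 1 / u) volume V V' := by
    refine ContinuousOn.intervalIntegrable ?_
    refine continuousOn_const.div continuousOn_id ?_
    intro x hx
    rw [uIcc_of_le hVV] at hx
    exact (lt_of_lt_of_le hV hx.1).ne'
  have h2 := integral_one_div_of_pos hV hV'
  rw [← h2, intervalIntegral.integral_of_le hVV, ofReal_integral_eq_lintegral_ofReal,
    restrict_Ioo_eq_restrict_Ioc]
  · exact (intervalIntegrable_iff_integrableOn_Ioc_of_le hVV).1 h1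
  · refine (ae_restrict_iff' measurableSet_Ioc).2 (Filter.Eventually.of_forall fun w hw => ?_)
    have : 0 < w := lt_trans hV hw.1
    change 0 ≤ 1 / w
    positivity

theorem lintegral_rpow_Ioo {a R : ℝ} (ha : 0 < a) (hR : 0 ≤ R) :
    ∫⁻ u in Ioo 0 R, ENNReal.ofReal (u ^ (a - 1)) = ENNReal.ofReal (R ^ a / a) := by
  have h1 : IntervalIntegrable (fun u : ℝ => u ^ (a - 1)) volume 0 R :=
    intervalIntegral.intervalIntegrable_rpow' (by linarith)
  have h2 : ∫ u in (0 : ℝ)..R, u ^ (a - 1) = R ^ a / a := by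
    rw [integral_rpow (Or.inl (by linarith))]
    simp [Real.zero_rpow ha.ne']
  rw [← h2, intervalIntegral.integral_of_le hR, ofReal_integral_eq_lintegral_ofReal,
    restrict_Ioo_eq_restrict_Ioc]
  · exact (intervalIntegrable_iff_integrableOn_Ioc_of_le hR).1 h1
  · refine (ae_restrict_iff' measurableSet_Ioc).2 (Filter.Eventually.of_forall fun w hw => ?_)
    have : 0 < w := hw.1
    change 0 ≤ w ^ (a - 1)
    positivity

theorem lintegral_sub_rpow {a w : ℝ} (ha : 0 < a) (hw : 0 ≤ w) :
    ∫⁻ u in Ioo 0 w, ENNReal.ofReal ((w - u) ^ (a - 1)) = ENNReal.ofReal (w ^ a / a) := by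
  rw [← lintegral_rpow_Ioo ha hw, ← lintegral_indicator measurableSet_Ioo,
    ← lintegral_indicator measurableSet_Ioo,
    ← lintegral_sub_left_eq_self (fun u => (Ioo 0 w).indicator
      (fun u => ENNReal.ofReal (u ^ (a - 1))) u) w]
  refine lintegral_congr fun u => ?_
  by_cases h : u ∈ Ioo 0 w
  · have h' : w - u ∈ Ioo 0 w := ⟨by linarith [h.2], by linarith [h.1]⟩
    rw [indicator_of_mem h, indicator_of_mem h']
  · have h' : w - u ∉ Ioo 0 w := fun h' => h ⟨by linarith [h'.2], by linarith [h'.1]⟩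
    rw [indicator_of_notMem h, indicator_of_notMem h']

theorem lintegral_rpow_Ioi {a R : ℝ} (ha : a < 0) (hR : 0 < R) :
    ∫⁻ u in Ioi R, ENNReal.ofReal (u ^ (a - 1)) = ENNReal.ofReal (R ^ a / (-a)) := by
  have h1 : IntegrableOn (fun u : ℝ => u ^ (a - 1)) (Ioi R) :=
    integrableOn_Ioi_rpow_of_lt (by linarith) hR
  have h2 : ∫ u in Ioi R, u ^ (a - 1) = R ^ a / (-a) := by
    rw [integral_Ioi_rpow_of_lt (by linarith) hR]
    rw [sub_add_cancel]
    rw [div_neg, neg_div]
  rw [← h2, ofReal_integral_eq_lintegral_ofReal h1]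
  refine (ae_restrict_iff' measurableSet_Ioi).2 (Filter.Eventually.of_forall fun w hw => ?_)
  have : 0 < w := lt_trans hR hw
  change 0 ≤ w ^ (a - 1)
  positivity

/-! ## The cut off kernel -/

/-- the kernel `(w - u) ^ (a - 1) / u` for `u < w` -/
noncomputable def kk (a w u : ℝ) : ℝ := if u < w then (w - u) ^ (a - 1) / u else 0

theorem measurable_kk (a : ℝ) : Measurable (fun p : ℝ × ℝ => kk a p.1 p.2) := by
  unfold kk
  refine Measurable.ite (measurableSet_lt measurable_snd measurable_fst) ?_ measurable_const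
  exact ((measurable_fst.sub measurable_snd).pow_const _).div measurable_snd

/-- the convolution of `w ^ (a - 1)` with `du / u` on `(V, V')` -/
noncomputable def II (a V V' w : ℝ) : ℝ≥0∞ := ∫⁻ u in Ioo V V', ENNReal.ofReal (kk a w u)

theorem measurable_II (a V V' : ℝ) : Measurable (II a V V') := by
  unfold II
  exact Measurable.lintegral_prod_right' (f := fun p : ℝ × ℝ => ENNReal.ofReal (kk a p.1 p.2))
    (measurable_kk a).ennreal_ofReal

theorem II_le {a V V' w : ℝ} (ha : 0 < a) (hV : 0 < V) (hVV : V ≤ V') (hw : 0 < w) :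
    II a V V' w ≤ ENNReal.ofReal ((Real.log (V' / V) + 1 / a) * w ^ (a - 1)) := by
  have hpt : ∀ u ∈ Ioo V V', ENNReal.ofReal (kk a w u) ≤
      ENNReal.ofReal (w ^ (a - 1)) * ENNReal.ofReal (1 / u) +
      ENNReal.ofReal (1 / w) *
        (Ioo 0 w).indicator (fun u => ENNReal.ofReal ((w - u) ^ (a - 1))) u := by
    intro u hu
    have hu0 : 0 < u := lt_trans hV hu.1
    unfold kk
    split_ifs with h
    · have hwu : 0 < w - u := by linarith
      have hmem : u ∈ Ioo 0 w := ⟨hu0, h⟩
      rw [indicator_of_mem hmem, ← ENNReal.ofReal_mul (by positivity),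
        ← ENNReal.ofReal_mul (by positivity), ← ENNReal.ofReal_add (by positivity) (by positivity)]
      refine ENNReal.ofReal_le_ofReal ?_
      have e1 : (w - u) ^ a = (w - u) ^ (a - 1) * (w - u) := by
        rw [← Real.rpow_add_one hwu.ne', sub_add_cancel]
      have e2 : w ^ a = w ^ (a - 1) * w := by
        rw [← Real.rpow_add_one hw.ne', sub_add_cancel]
      have e3 : (w - u) ^ a ≤ w ^ a := Real.rpow_le_rpow hwu.le (by linarith) ha.le
      rw [e1, e2] at e3
      have e4 : (w - u) ^ (a - 1) / u = ((w - u) ^ (a - 1) * (w - u)) / (w * u) +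
          1 / w * (w - u) ^ (a - 1) := by
        field_simp
        ring
      rw [e4]
      gcongr
      rw [div_le_iff₀ (by positivity)]
      calc (w - u) ^ (a - 1) * (w - u) ≤ w ^ (a - 1) * w := e3
        _ = w ^ (a - 1) * (1 / u) * (w * u) := by field_simp
    · simp
  unfold II
  calc ∫⁻ u in Ioo V V', ENNReal.ofReal (kk a w u) ≤ ∫⁻ u in Ioo V V',
        (ENNReal.ofReal (w ^ (a - 1)) * ENNReal.ofReal (1 / u) + ENNReal.ofReal (1 / w) *
          (Ioo 0 w).indicator (fun u => ENNReal.ofReal ((w - u) ^ (a - 1))) u) :=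
        setLIntegral_mono' measurableSet_Ioo hpt
    _ = ENNReal.ofReal (w ^ (a - 1)) * (∫⁻ u in Ioo V V', ENNReal.ofReal (1 / u)) +
        ENNReal.ofReal (1 / w) * ∫⁻ u in Ioo V V', (Ioo 0 w).indicator
          (fun u => ENNReal.ofReal ((w - u) ^ (a - 1))) u := by
        rw [lintegral_add_left (by fun_prop), lintegral_const_mul _ (by fun_prop),
          lintegral_const_mul _ (Measurable.indicator (by fun_prop) measurableSet_Ioo)]
    _ ≤ ENNReal.ofReal (w ^ (a - 1)) * ENNReal.ofReal (Real.log (V' / V)) +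
        ENNReal.ofReal (1 / w) * ENNReal.ofReal (w ^ a / a) := by
        rw [lintegral_log hV hVV]
        gcongr
        rw [← lintegral_sub_rpow ha hw.le]
        exact (setLIntegral_le_lintegral _ _).trans_eq (lintegral_indicator measurableSet_Ioo _)
    _ = ENNReal.ofReal ((Real.log (V' / V) + 1 / a) * w ^ (a - 1)) := by
        have hlog : 0 ≤ Real.log (V' / V) := Real.log_nonneg ((one_le_div hV).2 hVV)
        rw [← ENNReal.ofReal_mul (by positivity), ← ENNReal.ofReal_mul (by positivity),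
          ← ENNReal.ofReal_add (by positivity) (by positivity)]
        congr 1
        have e2 : w ^ a = w ^ (a - 1) * w := by
          rw [← Real.rpow_add_one hw.ne', sub_add_cancel]
        rw [e2]
        field_simp

theorem le_II {a V V' w : ℝ} (ha1 : a ≤ 1) (hV : 0 < V) (hVV : V ≤ V') (hw : V' ≤ w) :
    ENNReal.ofReal (Real.log (V' / V) * w ^ (a - 1)) ≤ II a V V' w := by
  have hV' : 0 < V' := lt_of_lt_of_le hV hVV
  have hw0 : 0 < w := lt_of_lt_of_le hV' hw
  unfold II
  rw [mul_comm, ENNReal.ofReal_mul (by positivity), ← lintegral_log hV hVV,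
    ← lintegral_const_mul _ (by fun_prop)]
  refine setLIntegral_mono' measurableSet_Ioo fun u hu => ?_
  have hu0 : 0 < u := lt_trans hV hu.1
  have huw : u < w := lt_of_lt_of_le hu.2 hw
  rw [← ENNReal.ofReal_mul (by positivity), kk, if_pos huw, div_eq_mul_one_div ((w - u) ^ (a - 1))]
  refine ENNReal.ofReal_le_ofReal ?_
  gcongr ?_ * (1 / u)
  exact Real.rpow_le_rpow_of_nonpos (by linarith) (by linarith) (by linarith)

theorem lintegral_exp_II {a V V' r : ℝ} (ha : 0 < a) (hV : 0 < V) (hr : 0 < r) :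
    ∫⁻ w in Ioi (0 : ℝ), ENNReal.ofReal (Real.exp (-w * r)) * II a V V' w =
      ENNReal.ofReal (Real.Gamma a * r ^ (-a)) *
        ∫⁻ u in Ioo V V', ENNReal.ofReal (Real.exp (-u * r) / u) := by
  unfold II
  have h1 : ∀ w : ℝ, ENNReal.ofReal (Real.exp (-w * r)) *
      ∫⁻ u in Ioo V V', ENNReal.ofReal (kk a w u) =
      ∫⁻ u in Ioo V V', ENNReal.ofReal (Real.exp (-w * r)) * ENNReal.ofReal (kk a w u) := by
    intro w
    rw [lintegral_const_mul]
    exact ((measurable_kk a).comp (measurable_const.prodMk measurable_id)).ennreal_ofReal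
  simp_rw [h1]
  rw [lintegral_lintegral_swap]
  · rw [← lintegral_const_mul _ (by fun_prop)]
    refine setLIntegral_congr_fun measurableSet_Ioo fun u hu => ?_
    have hu0 : 0 < u := lt_trans hV hu.1
    rw [← lintegral_gamma ha hr, ← lintegral_indicator measurableSet_Ioi,
      ← lintegral_indicator measurableSet_Ioi, ← lintegral_mul_const _ (by
        refine Measurable.indicator ?_ measurableSet_Ioi
        fun_prop)]
    rw [← lintegral_sub_right_eq_self (fun w => (Ioi (0 : ℝ)).indicator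
      (fun w => ENNReal.ofReal (w ^ (a - 1) * Real.exp (-w * r))) w *
        ENNReal.ofReal (Real.exp (-u * r) / u)) u]
    refine lintegral_congr fun w => ?_
    by_cases h : u < w
    · have h' : w - u ∈ Ioi (0 : ℝ) := by simpa using h
      have h'' : w ∈ Ioi (0 : ℝ) := lt_trans hu0 h
      have h3 : 0 < w - u := h'
      rw [indicator_of_mem h', indicator_of_mem h'', kk, if_pos h,
        ← ENNReal.ofReal_mul (by positivity), ← ENNReal.ofReal_mul (by positivity)]
      congr 1
      have : Real.exp (-w * r) = Real.exp (-(w - u) * r) * Real.exp (-u * r) := by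
        rw [← Real.exp_add]
        congr 1
        ring
      rw [this]
      ring
    · have h' : w - u ∉ Ioi (0 : ℝ) := by simpa using h
      rw [indicator_of_notMem h', zero_mul]
      by_cases h'' : w ∈ Ioi (0 : ℝ)
      · rw [indicator_of_mem h'', kk, if_neg h]
        simp
      · rw [indicator_of_notMem h'']
  · have hm1 : Measurable (fun p : ℝ × ℝ => ENNReal.ofReal (Real.exp (-p.1 * r))) := by fun_prop
    exact (hm1.mul (measurable_kk a).ennreal_ofReal).aemeasurable

/-! ## The two measures -/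

/-- the measure with density `w ^ (a - 1) / Gamma a` -/
noncomputable def mu1 (a : ℝ) : Measure ℝ :=
  (volume.restrict (Ioi 0)).withDensity (fun w => ENNReal.ofReal ((Real.Gamma a)⁻¹ * w ^ (a - 1)))

/-- the density of the second measure -/
noncomputable def GG (a J V V' w : ℝ) : ℝ≥0∞ :=
  ENNReal.ofReal (Real.Gamma a)⁻¹ *
    (ENNReal.ofReal ((1 + 1 / a / J) * w ^ (a - 1)) - ENNReal.ofReal J⁻¹ * II a V V' w)

/-- the second measure -/
noncomputable def mu2 (a J V V' : ℝ) : Measure ℝ :=
  (volume.restrict (Ioi 0)).withDensity (GG a J V V')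

instance (a : ℝ) : SigmaFinite (mu1 a) := by
  unfold mu1
  infer_instance

theorem GG_ne_top (a J V V' w : ℝ) : GG a J V V' w ≠ ∞ := by
  unfold GG
  refine ENNReal.mul_ne_top ENNReal.ofReal_ne_top ?_
  exact ne_top_of_le_ne_top ENNReal.ofReal_ne_top tsub_le_self

instance (a J V V' : ℝ) : SigmaFinite (mu2 a J V V') := by
  unfold mu2
  exact SigmaFinite.withDensity_of_ne_top' (GG_ne_top a J V V')

theorem measurable_GG (a J V V' : ℝ) : Measurable (GG a J V V') := by
  unfold GG
  have := measurable_II a V V'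
  fun_prop

theorem ae_mu1 (a : ℝ) : ∀ᵐ w ∂(mu1 a), 0 < w := by
  unfold mu1
  refine (withDensity_absolutelyContinuous _ _) ?_
  exact ae_restrict_mem measurableSet_Ioi

theorem ae_mu2 (a J V V' : ℝ) : ∀ᵐ w ∂(mu2 a J V V'), 0 < w := by
  unfold mu2
  refine (withDensity_absolutelyContinuous _ _) ?_
  exact ae_restrict_mem measurableSet_Ioi

theorem lintegral_mu1 {a : ℝ} {f : ℝ → ℝ≥0∞} (hf : Measurable f) :
    ∫⁻ w, f w ∂(mu1 a) = ∫⁻ w in Ioi 0, ENNReal.ofReal ((Real.Gamma a)⁻¹ * w ^ (a - 1)) * f w := by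
  unfold mu1
  rw [lintegral_withDensity_eq_lintegral_mul _ (by fun_prop) hf]
  rfl

theorem lintegral_mu2 {a J V V' : ℝ} {f : ℝ → ℝ≥0∞} (hf : Measurable f) :
    ∫⁻ w, f w ∂(mu2 a J V V') = ∫⁻ w in Ioi 0, GG a J V V' w * f w := by
  unfold mu2
  rw [lintegral_withDensity_eq_lintegral_mul _ (measurable_GG a J V V') hf]
  rfl

theorem laplace_mu1 {a r : ℝ} (ha : 0 < a) (hr : 0 < r) :
    ∫ w, Real.exp (-w * r) ∂(mu1 a) = r ^ (-a) := by
  have hG : 0 < Real.Gamma a := Real.Gamma_pos_of_pos ha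
  rw [integral_eq_lintegral_of_nonneg_ae (Filter.Eventually.of_forall fun w => (Real.exp_pos _).le)
    (by fun_prop), lintegral_mu1 (by fun_prop)]
  have : ∫⁻ w in Ioi (0 : ℝ), ENNReal.ofReal ((Real.Gamma a)⁻¹ * w ^ (a - 1)) *
      ENNReal.ofReal (Real.exp (-w * r)) =
      ENNReal.ofReal (Real.Gamma a)⁻¹ *
        ∫⁻ w in Ioi (0 : ℝ), ENNReal.ofReal (w ^ (a - 1) * Real.exp (-w * r)) := by
    rw [← lintegral_const_mul _ (by fun_prop)]
    refine setLIntegral_congr_fun measurableSet_Ioi fun w hw => ?_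
    have hw' : (0 : ℝ) < w := hw
    rw [← ENNReal.ofReal_mul (by positivity), ← ENNReal.ofReal_mul (by positivity)]
    congr 1
    ring
  rw [this, lintegral_gamma ha hr, ← ENNReal.ofReal_mul (by positivity), ENNReal.toReal_ofReal
    (by positivity)]
  field_simp

theorem II_scaled_le {a J V V' w : ℝ} (ha : 0 < a) (hJ : 0 < J) (hV : 0 < V) (hVV : V ≤ V')
    (hlog : Real.log (V' / V) = J) (hw : 0 < w) :
    ENNReal.ofReal J⁻¹ * II a V V' w ≤ ENNReal.ofReal ((1 + 1 / a / J) * w ^ (a - 1)) := by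
  calc ENNReal.ofReal J⁻¹ * II a V V' w ≤
      ENNReal.ofReal J⁻¹ * ENNReal.ofReal ((J + 1 / a) * w ^ (a - 1)) := by
        gcongr
        have := II_le ha hV hVV hw
        rwa [hlog] at this
    _ = ENNReal.ofReal ((1 + 1 / a / J) * w ^ (a - 1)) := by
        rw [← ENNReal.ofReal_mul (by positivity)]
        congr 1
        field_simp

theorem lintegral_HJ {J R r : ℝ} (hJ : 0 < J) (hR : 0 < R) :
    ∫⁻ u in Ioo (R * Real.exp (-2 * J)) (R * Real.exp (-J)),
      ENNReal.ofReal (Real.exp (-u * r) / u) = ENNReal.ofReal (J * HJ J (R * r)) := by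
  have hle : R * Real.exp (-2 * J) ≤ R * Real.exp (-J) := by
    gcongr
    linarith
  have hV : 0 < R * Real.exp (-2 * J) := by positivity
  have h1 : IntervalIntegrable (fun u : ℝ => Real.exp (-u * r) / u) volume
      (R * Real.exp (-2 * J)) (R * Real.exp (-J)) := by
    refine ContinuousOn.intervalIntegrable ?_
    refine ContinuousOn.div (by fun_prop) continuousOn_id ?_
    intro x hx
    rw [uIcc_of_le hle] at hx
    exact (lt_of_lt_of_le hV hx.1).ne'
  have h2 : J * HJ J (R * r) = ∫ u in (R * Real.exp (-2 * J))..(R * Real.exp (-J)),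
      Real.exp (-u * r) / u := by
    unfold HJ
    rw [← mul_assoc, mul_inv_cancel₀ hJ.ne', one_mul]
    have h3 := intervalIntegral.integral_comp_mul_left (a := Real.exp (-2 * J))
      (b := Real.exp (-J)) (fun u : ℝ => Real.exp (-u * r) / u) hR.ne'
    rw [smul_eq_mul] at h3
    have h4 : ∫ u in (R * Real.exp (-2 * J))..(R * Real.exp (-J)), Real.exp (-u * r) / u =
        R * ∫ x in (Real.exp (-2 * J))..(Real.exp (-J)), Real.exp (-(R * x) * r) / (R * x) := by
      rw [h3, ← mul_assoc, mul_inv_cancel₀ hR.ne', one_mul]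
    rw [h4, ← intervalIntegral.integral_const_mul]
    refine intervalIntegral.integral_congr fun x _ => ?_
    change Real.exp (-x * (R * r)) / x = R * (Real.exp (-(R * x) * r) / (R * x))
    have h5 : -x * (R * r) = -(R * x) * r := by ring
    rw [h5]
    by_cases hx : x = 0
    · simp [hx]
    · field_simp
  rw [h2, intervalIntegral.integral_of_le hle, ofReal_integral_eq_lintegral_ofReal,
    restrict_Ioo_eq_restrict_Ioc]
  · exact (intervalIntegrable_iff_integrableOn_Ioc_of_le hle).1 h1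
  · refine (ae_restrict_iff' measurableSet_Ioc).2 (Filter.Eventually.of_forall fun w hw => ?_)
    have : 0 < w := lt_trans hV hw.1
    change 0 ≤ Real.exp (-w * r) / w
    positivity

theorem HJ_nonneg {J u : ℝ} (hJ : 0 < J) : 0 ≤ HJ J u := by
  unfold HJ
  refine mul_nonneg (by positivity) ?_
  have hle : Real.exp (-2 * J) ≤ Real.exp (-J) := Real.exp_le_exp.2 (by linarith)
  refine intervalIntegral.integral_nonneg hle fun w hw => ?_
  have : 0 < w := lt_of_lt_of_le (Real.exp_pos _) hw.1
  positivity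

theorem HJ_le_one {J u : ℝ} (hJ : 0 < J) (hu : 0 ≤ u) : HJ J u ≤ 1 := by
  unfold HJ
  have hle : Real.exp (-2 * J) ≤ Real.exp (-J) := Real.exp_le_exp.2 (by linarith)
  have h0 : ∀ x ∈ uIcc (Real.exp (-2 * J)) (Real.exp (-J)), x ≠ 0 := by
    intro x hx
    rw [uIcc_of_le hle] at hx
    exact (lt_of_lt_of_le (Real.exp_pos _) hx.1).ne'
  have h1 : ∫ w in (Real.exp (-2 * J))..(Real.exp (-J)), Real.exp (-w * u) / w ≤
      ∫ w in (Real.exp (-2 * J))..(Real.exp (-J)), 1 / w := by
    refine intervalIntegral.integral_mono_on hle ?_ ?_ ?_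
    · refine ContinuousOn.intervalIntegrable ?_
      exact ContinuousOn.div (by fun_prop) continuousOn_id h0
    · refine ContinuousOn.intervalIntegrable ?_
      exact ContinuousOn.div (by fun_prop) continuousOn_id h0
    · intro w hw
      have : 0 < w := lt_of_lt_of_le (Real.exp_pos _) hw.1
      gcongr
      rw [Real.exp_le_one_iff]
      nlinarith
  have h2 : ∫ w in (Real.exp (-2 * J))..(Real.exp (-J)), 1 / w = J := by
    rw [integral_one_div_of_pos (Real.exp_pos _) (Real.exp_pos _), ← Real.exp_sub, Real.log_exp]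
    ring
  rw [h2] at h1
  calc J⁻¹ * _ ≤ J⁻¹ * J := by gcongr
    _ = 1 := inv_mul_cancel₀ hJ.ne'

theorem log_ratio {J R : ℝ} (hR : 0 < R) :
    Real.log (R * Real.exp (-J) / (R * Real.exp (-2 * J))) = J := by
  rw [mul_div_mul_left _ _ hR.ne', ← Real.exp_sub, Real.log_exp]
  ring

theorem laplace_mu2 {a J R r : ℝ} (ha : 0 < a) (hJ : 0 < J) (hR : 0 < R) (hr : 0 < r) :
    ∫ w, Real.exp (-w * r) ∂(mu2 a J (R * Real.exp (-2 * J)) (R * Real.exp (-J))) =
      r ^ (-a) * (1 + 1 / a / J - HJ J (R * r)) := by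
  have hG : 0 < Real.Gamma a := Real.Gamma_pos_of_pos ha
  have hle : R * Real.exp (-2 * J) ≤ R * Real.exp (-J) := by
    gcongr
    linarith
  have hV : 0 < R * Real.exp (-2 * J) := by positivity
  set V := R * Real.exp (-2 * J) with hVdef
  set V' := R * Real.exp (-J) with hV'def
  have hH0 : 0 ≤ HJ J (R * r) := HJ_nonneg hJ
  have hH1 : HJ J (R * r) ≤ 1 := HJ_le_one hJ (by positivity)
  rw [integral_eq_lintegral_of_nonneg_ae (Filter.Eventually.of_forall fun w => (Real.exp_pos _).le)
    (by fun_prop), lintegral_mu2 (by fun_prop)]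
  have hmII := measurable_II a V V'
  have hJII : ∫⁻ w in Ioi (0 : ℝ), ENNReal.ofReal J⁻¹ *
      (ENNReal.ofReal (Real.exp (-w * r)) * II a V V' w) =
      ENNReal.ofReal (Real.Gamma a * r ^ (-a) * HJ J (R * r)) := by
    rw [lintegral_const_mul _ (by fun_prop), lintegral_exp_II ha hV hr, hVdef, hV'def,
      lintegral_HJ hJ hR, ← ENNReal.ofReal_mul (by positivity), ← ENNReal.ofReal_mul (by positivity)]
    congr 1
    field_simp
  have h1 : ∫⁻ w in Ioi (0 : ℝ), GG a J V V' w * ENNReal.ofReal (Real.exp (-w * r)) =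
      ENNReal.ofReal (Real.Gamma a)⁻¹ * ∫⁻ w in Ioi (0 : ℝ),
        (ENNReal.ofReal ((1 + 1 / a / J)) * ENNReal.ofReal (w ^ (a - 1) * Real.exp (-w * r)) -
          ENNReal.ofReal J⁻¹ * (ENNReal.ofReal (Real.exp (-w * r)) * II a V V' w)) := by
    rw [← lintegral_const_mul _ (by fun_prop)]
    refine setLIntegral_congr_fun measurableSet_Ioi fun w hw => ?_
    have hw' : (0 : ℝ) < w := hw
    unfold GG
    rw [mul_assoc, ENNReal.sub_mul (fun _ _ => ENNReal.ofReal_ne_top)]
    congr 2
    · rw [ENNReal.ofReal_mul (by positivity), ENNReal.ofReal_mul (by positivity)]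
      ring
    · ring
  rw [h1, lintegral_sub' (by fun_prop) (by rw [hJII]; exact ENNReal.ofReal_ne_top), hJII,
    lintegral_const_mul _ (by fun_prop), lintegral_gamma ha hr,
    ← ENNReal.ofReal_mul (by positivity), ← ENNReal.ofReal_sub _ (by positivity),
    ← ENNReal.ofReal_mul (by positivity), ENNReal.toReal_ofReal]
  · field_simp
  · have : (Real.Gamma a)⁻¹ * ((1 + 1 / a / J) * (Real.Gamma a * r ^ (-a)) -
        Real.Gamma a * r ^ (-a) * HJ J (R * r)) = r ^ (-a) * (1 + 1 / a / J - HJ J (R * r)) := by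
      field_simp
    rw [this]
    have h3 : 0 ≤ 1 / a / J := by positivity
    have h4 : 0 ≤ 1 + 1 / a / J - HJ J (R * r) := by linarith
    positivity
  · refine (ae_restrict_iff' measurableSet_Ioi).2 (Filter.Eventually.of_forall fun w hw => ?_)
    have hw' : (0 : ℝ) < w := hw
    have h5 := II_scaled_le ha hJ hV hle (log_ratio hR) hw'
    calc ENNReal.ofReal J⁻¹ * (ENNReal.ofReal (Real.exp (-w * r)) * II a V V' w) =
        (ENNReal.ofReal J⁻¹ * II a V V' w) * ENNReal.ofReal (Real.exp (-w * r)) := by ring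
      _ ≤ ENNReal.ofReal ((1 + 1 / a / J) * w ^ (a - 1)) * ENNReal.ofReal (Real.exp (-w * r)) := by
          gcongr
      _ = ENNReal.ofReal ((1 + 1 / a / J)) * ENNReal.ofReal (w ^ (a - 1) * Real.exp (-w * r)) := by
          rw [ENNReal.ofReal_mul (by positivity), ENNReal.ofReal_mul (by positivity)]
          ring

/-! ## Upper bounds -/

/-- the constant `1 / a + 1 / (1 - a)` -/
noncomputable def AA (a : ℝ) : ℝ := 1 / a + 1 / (1 - a)

theorem AA_pos {a : ℝ} (ha : 0 < a) (ha1 : a < 1) : 0 < AA a := by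
  unfold AA
  have : 0 < 1 - a := by linarith
  positivity

/-- cut off -/
noncomputable def ph (R w : ℝ) : ℝ := min 1 (R / w)

theorem ph_nonneg {R w : ℝ} (hR : 0 < R) (hw : 0 < w) : 0 ≤ ph R w := by
  unfold ph
  positivity

theorem ph_le_one (R w : ℝ) : ph R w ≤ 1 := min_le_left _ _

theorem measurable_ph (R : ℝ) : Measurable (ph R) := by
  unfold ph
  exact measurable_const.min (measurable_const.div measurable_id)

theorem lintegral_ph {a R : ℝ} (ha : 0 < a) (ha1 : a < 1) (hR : 0 < R) :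
    ∫⁻ w in Ioi (0 : ℝ), ENNReal.ofReal (w ^ (a - 1)) * ENNReal.ofReal (ph R w) ≤
      ENNReal.ofReal (R ^ a * AA a) := by
  have hsplit : Ioi (0 : ℝ) = Ioc 0 R ∪ Ioi R := (Ioc_union_Ioi_eq_Ioi hR.le).symm
  have h1 : ∫⁻ w in Ioc (0 : ℝ) R, ENNReal.ofReal (w ^ (a - 1)) * ENNReal.ofReal (ph R w) ≤
      ENNReal.ofReal (R ^ a / a) := by
    rw [← lintegral_rpow_Ioo ha hR.le, restrict_Ioo_eq_restrict_Ioc]
    refine lintegral_mono fun w => ?_
    calc ENNReal.ofReal (w ^ (a - 1)) * ENNReal.ofReal (ph R w) ≤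
        ENNReal.ofReal (w ^ (a - 1)) * ENNReal.ofReal 1 := by
          gcongr
          exact ph_le_one R w
      _ = ENNReal.ofReal (w ^ (a - 1)) := by simp
  have h2 : ∫⁻ w in Ioi R, ENNReal.ofReal (w ^ (a - 1)) * ENNReal.ofReal (ph R w) ≤
      ENNReal.ofReal (R ^ a / (1 - a)) := by
    have h3 : ENNReal.ofReal (R ^ a / (1 - a)) =
        ENNReal.ofReal R * ∫⁻ w in Ioi R, ENNReal.ofReal (w ^ ((a - 1) - 1)) := by
      rw [lintegral_rpow_Ioi (by linarith) hR, ← ENNReal.ofReal_mul hR.le]
      congr 1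
      have : R ^ a = R * R ^ (a - 1) := by
        rw [mul_comm, ← Real.rpow_add_one hR.ne', sub_add_cancel]
      rw [this]
      ring
    rw [h3, ← lintegral_const_mul _ (by fun_prop)]
    refine setLIntegral_mono' measurableSet_Ioi fun w hw => ?_
    have hw0 : 0 < w := lt_trans hR hw
    have h4 : ph R w ≤ R / w := min_le_right _ _
    calc ENNReal.ofReal (w ^ (a - 1)) * ENNReal.ofReal (ph R w) ≤
        ENNReal.ofReal (w ^ (a - 1)) * ENNReal.ofReal (R / w) := by
          gcongr
      _ = ENNReal.ofReal R * ENNReal.ofReal (w ^ ((a - 1) - 1)) := by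
          rw [← ENNReal.ofReal_mul (by positivity), ← ENNReal.ofReal_mul hR.le,
            Real.rpow_sub_one hw0.ne' (a - 1)]
          congr 1
          ring
  have h1a : 0 < 1 - a := by linarith
  rw [hsplit]
  calc ∫⁻ w in Ioc 0 R ∪ Ioi R, ENNReal.ofReal (w ^ (a - 1)) * ENNReal.ofReal (ph R w) ≤ _ :=
        lintegral_union_le _ _ _
    _ ≤ ENNReal.ofReal (R ^ a / a) + ENNReal.ofReal (R ^ a / (1 - a)) := add_le_add h1 h2
    _ = ENNReal.ofReal (R ^ a * AA a) := by
        rw [← ENNReal.ofReal_add (by positivity) (by positivity), AA]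
        congr 1
        ring

theorem lintegral_ph_mu1 {a R : ℝ} (ha : 0 < a) (ha1 : a < 1) (hR : 0 < R) :
    ∫⁻ w, ENNReal.ofReal (ph R w) ∂(mu1 a) ≤
      ENNReal.ofReal ((Real.Gamma a)⁻¹ * (R ^ a * AA a)) := by
  have hG : 0 < Real.Gamma a := Real.Gamma_pos_of_pos ha
  have hA := AA_pos ha ha1
  have hm := measurable_ph R
  rw [lintegral_mu1 (by fun_prop), ENNReal.ofReal_mul (by positivity)]
  calc ∫⁻ w in Ioi (0 : ℝ), ENNReal.ofReal ((Real.Gamma a)⁻¹ * w ^ (a - 1)) *
        ENNReal.ofReal (ph R w) =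
      ENNReal.ofReal (Real.Gamma a)⁻¹ *
        ∫⁻ w in Ioi (0 : ℝ), ENNReal.ofReal (w ^ (a - 1)) * ENNReal.ofReal (ph R w) := by
        rw [← lintegral_const_mul _ (by fun_prop)]
        refine setLIntegral_congr_fun measurableSet_Ioi fun w hw => ?_
        rw [ENNReal.ofReal_mul (by positivity), mul_assoc]
    _ ≤ _ := by
        gcongr
        exact lintegral_ph ha ha1 hR

theorem GG_le {a J V V' w : ℝ} (ha : 0 < a) (ha1 : a < 1) (hJ : 0 < J) (hV : 0 < V) (hVV : V ≤ V')
    (hlog : Real.log (V' / V) = J) (hw : 0 < w) :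
    GG a J V V' w ≤ ENNReal.ofReal (Real.Gamma a)⁻¹ *
      ((Ioo 0 V').indicator (fun w => ENNReal.ofReal (w ^ (a - 1))) w +
        ENNReal.ofReal (1 / a / J) * ENNReal.ofReal (w ^ (a - 1))) := by
  unfold GG
  gcongr
  have h1 : ENNReal.ofReal ((1 + 1 / a / J) * w ^ (a - 1)) = ENNReal.ofReal (w ^ (a - 1)) +
      ENNReal.ofReal (1 / a / J) * ENNReal.ofReal (w ^ (a - 1)) := by
    rw [← ENNReal.ofReal_mul (by positivity), ← ENNReal.ofReal_add (by positivity) (by positivity)]
    congr 1
    ring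
  by_cases h : w < V'
  · rw [indicator_of_mem (show w ∈ Ioo 0 V' from ⟨hw, h⟩), ← h1]
    exact tsub_le_self
  · rw [indicator_of_notMem (fun h' : w ∈ Ioo 0 V' => h h'.2), zero_add, tsub_le_iff_left, h1]
    gcongr
    have h2 := le_II (a := a) ha1.le hV hVV (not_lt.1 h)
    rw [hlog] at h2
    calc ENNReal.ofReal (w ^ (a - 1)) =
        ENNReal.ofReal J⁻¹ * ENNReal.ofReal (J * w ^ (a - 1)) := by
          rw [← ENNReal.ofReal_mul (by positivity)]
          congr 1
          field_simp
      _ ≤ _ := by gcongr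

theorem lintegral_ph_mu2 {a J V V' R : ℝ} (ha : 0 < a) (ha1 : a < 1) (hJ : 0 < J) (hV : 0 < V)
    (hVV : V ≤ V') (hlog : Real.log (V' / V) = J) (hR : 0 < R) :
    ∫⁻ w, ENNReal.ofReal (ph R w) ∂(mu2 a J V V') ≤
      ENNReal.ofReal ((Real.Gamma a)⁻¹ * (V' ^ a / a + 1 / a / J * (R ^ a * AA a))) := by
  have hG : 0 < Real.Gamma a := Real.Gamma_pos_of_pos ha
  have hA := AA_pos ha ha1
  have hm := measurable_ph R
  have hV' : 0 < V' := lt_of_lt_of_le hV hVV
  rw [lintegral_mu2 (by fun_prop)]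
  have hmi : Measurable ((Ioo 0 V').indicator (fun w : ℝ => ENNReal.ofReal (w ^ (a - 1)))) :=
    Measurable.indicator (by fun_prop) measurableSet_Ioo
  calc ∫⁻ w in Ioi (0 : ℝ), GG a J V V' w * ENNReal.ofReal (ph R w) ≤
      ∫⁻ w in Ioi (0 : ℝ), ENNReal.ofReal (Real.Gamma a)⁻¹ *
        ((Ioo 0 V').indicator (fun w => ENNReal.ofReal (w ^ (a - 1))) w +
        ENNReal.ofReal (1 / a / J) *
          (ENNReal.ofReal (w ^ (a - 1)) * ENNReal.ofReal (ph R w))) := by
        refine setLIntegral_mono' measurableSet_Ioi fun w hw => ?_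
        have hw0 : (0 : ℝ) < w := hw
        calc GG a J V V' w * ENNReal.ofReal (ph R w) ≤ (ENNReal.ofReal (Real.Gamma a)⁻¹ *
            ((Ioo 0 V').indicator (fun w => ENNReal.ofReal (w ^ (a - 1))) w +
              ENNReal.ofReal (1 / a / J) * ENNReal.ofReal (w ^ (a - 1)))) *
                ENNReal.ofReal (ph R w) := by
              gcongr
              exact GG_le ha ha1 hJ hV hVV hlog hw0
          _ = ENNReal.ofReal (Real.Gamma a)⁻¹ *
            ((Ioo 0 V').indicator (fun w => ENNReal.ofReal (w ^ (a - 1))) w *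
              ENNReal.ofReal (ph R w) + ENNReal.ofReal (1 / a / J) *
                (ENNReal.ofReal (w ^ (a - 1)) * ENNReal.ofReal (ph R w))) := by ring
          _ ≤ _ := by
              gcongr
              have h1 : ENNReal.ofReal (ph R w) ≤ 1 := by
                rw [← ENNReal.ofReal_one]
                exact ENNReal.ofReal_le_ofReal (ph_le_one R w)
              calc _ ≤ (Ioo 0 V').indicator (fun w => ENNReal.ofReal (w ^ (a - 1))) w * 1 := by
                    gcongr
                _ = _ := mul_one _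
    _ = ENNReal.ofReal (Real.Gamma a)⁻¹ *
        ((∫⁻ w in Ioi (0 : ℝ), (Ioo 0 V').indicator (fun w => ENNReal.ofReal (w ^ (a - 1))) w) +
        ENNReal.ofReal (1 / a / J) *
          ∫⁻ w in Ioi (0 : ℝ), ENNReal.ofReal (w ^ (a - 1)) * ENNReal.ofReal (ph R w)) := by
        rw [lintegral_const_mul _ (by fun_prop), lintegral_add_left hmi,
          lintegral_const_mul _ (by fun_prop)]
    _ ≤ ENNReal.ofReal (Real.Gamma a)⁻¹ * (ENNReal.ofReal (V' ^ a / a) +
        ENNReal.ofReal (1 / a / J) * ENNReal.ofReal (R ^ a * AA a)) := by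
        gcongr
        · rw [← lintegral_rpow_Ioo ha hV'.le]
          exact (setLIntegral_le_lintegral _ _).trans_eq (lintegral_indicator measurableSet_Ioo _)
        · exact lintegral_ph ha ha1 hR
    _ = _ := by
        rw [← ENNReal.ofReal_mul (by positivity), ← ENNReal.ofReal_add (by positivity)
          (by positivity), ← ENNReal.ofReal_mul (by positivity)]

theorem integrable_of_lintegral {μ : Measure ℝ} {f : ℝ → ℝ} (hf : Measurable f)
    (h0 : ∀ᵐ x ∂μ, 0 ≤ f x) {B : ℝ} (hB : 0 ≤ B)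
    (h : ∫⁻ w, ENNReal.ofReal (f w) ∂μ ≤ ENNReal.ofReal B) :
    Integrable f μ ∧ 0 ≤ ∫ w, f w ∂μ ∧ ∫ w, f w ∂μ ≤ B := by
  refine ⟨⟨hf.aestronglyMeasurable, ?_⟩, integral_nonneg_of_ae h0, ?_⟩
  · rw [hasFiniteIntegral_iff_ofReal h0]
    exact lt_of_le_of_lt h ENNReal.ofReal_lt_top
  · rw [integral_eq_lintegral_of_nonneg_ae h0 hf.aestronglyMeasurable]
    exact ENNReal.toReal_le_of_le_ofReal hB h

theorem ph_mul {R v w : ℝ} (hR : 0 < R) (hv : 0 < v) (hw : 0 < w) :
    min 1 (R ^ 2 / (v + w) ^ 2) ≤ ph R v * ph R w := by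
  unfold ph
  have hvw : 0 < v + w := by linarith
  rcases le_total v R with h1 | h1 <;> rcases le_total w R with h2 | h2
  · rw [min_eq_left ((one_le_div hv).2 h1), min_eq_left ((one_le_div hw).2 h2)]
    simp
  · rw [min_eq_left ((one_le_div hv).2 h1), min_eq_right ((div_le_one hw).2 h2), one_mul]
    refine (min_le_right _ _).trans ?_
    rw [div_le_div_iff₀ (by positivity) hw]
    have : R ^ 2 * w ≤ R * w ^ 2 := by
      nlinarith [mul_nonneg (mul_pos hR hw).le (sub_nonneg.2 h2)]
    refine this.trans ?_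
    gcongr
    linarith
  · rw [min_eq_right ((div_le_one hv).2 h1), min_eq_left ((one_le_div hw).2 h2), mul_one]
    refine (min_le_right _ _).trans ?_
    rw [div_le_div_iff₀ (by positivity) hv]
    have : R ^ 2 * v ≤ R * v ^ 2 := by
      nlinarith [mul_nonneg (mul_pos hR hv).le (sub_nonneg.2 h1)]
    refine this.trans ?_
    gcongr
    linarith
  · rw [min_eq_right ((div_le_one hv).2 h1), min_eq_right ((div_le_one hw).2 h2)]
    refine (min_le_right _ _).trans ?_
    rw [div_mul_div_comm, ← pow_two]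
    gcongr
    nlinarith

/-! ## The measurability of the localising function -/

theorem measurable_HJ (J : ℝ) : Measurable (HJ J) := by
  unfold HJ
  refine Measurable.const_mul ?_ _
  have h1 : ∀ α β : ℝ, Measurable (fun u : ℝ => ∫ w in Ioc α β, Real.exp (-w * u) / w) := by
    intro α β
    refine StronglyMeasurable.measurable ?_
    refine StronglyMeasurable.integral_prod_right'
      (f := fun p : ℝ × ℝ => Real.exp (-p.2 * p.1) / p.2) ?_
    refine Measurable.stronglyMeasurable ?_
    fun_prop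
  unfold intervalIntegral
  exact (h1 _ _).sub (h1 _ _)

/-! ## The main statement -/

theorem lb_loc {s : ℝ} (h0 : 0 < s) (h2 : s < 2) : ∃ c c' : ℝ, 0 < c ∧ 0 < c' ∧ ∀ J : ℝ, 1 ≤ J →
    ∀ (N : ℕ) (x : Fin N → E3), 1 ≤ N → Conf x →
    PS x (fun r => K s r * HJ J (Real.sqrt N * r)) -
      (N : ℝ) ^ 2 * bg (fun r => K s r * HJ J (Real.sqrt N * r)) ≤
      (1 + c / J) * (PS x (K s) - Cc s * (N : ℝ) ^ 2) + c' / J * (N : ℝ) ^ (1 + s / 2) := by
  set a := s / 2 with ha_def
  have ha : 0 < a := by positivity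
  have ha1 : a < 1 := by rw [ha_def]; linarith
  have hG : 0 < Real.Gamma a := Real.Gamma_pos_of_pos ha
  have hA := AA_pos ha ha1
  refine ⟨1 / a, (Real.Gamma a)⁻¹ ^ 2 * AA a * (1 / a ^ 2 + 1 / a * AA a), by positivity,
    by positivity, ?_⟩
  intro J hJ N x hN hx
  have hJ0 : 0 < J := by linarith
  have hN0 : (1 : ℝ) ≤ N := by exact_mod_cast hN
  set R := Real.sqrt N with hR_def
  have hR1 : 1 ≤ R := Real.one_le_sqrt.2 hN0
  have hR : 0 < R := by linarith
  have hRR : R ^ 2 = N := Real.sq_sqrt (by linarith)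
  have hle : R * Real.exp (-2 * J) ≤ R * Real.exp (-J) := by
    gcongr
    linarith
  have hV : 0 < R * Real.exp (-2 * J) := by positivity
  have hlog := log_ratio (J := J) hR
  set V := R * Real.exp (-2 * J) with hVdef
  set V' := R * Real.exp (-J) with hV'def
  have hV' : 0 < V' := by positivity
  -- the measure
  set μ : Measure (ℝ × ℝ) := (mu1 a).prod (mu2 a J V V') with hμ
  have haeμ : ∀ᵐ z ∂μ, 0 < z.1 ∧ 0 < z.2 := by
    have e1 : ∀ᵐ z ∂μ, 0 < z.1 := Measure.quasiMeasurePreserving_fst.ae (ae_mu1 a)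
    have e2 : ∀ᵐ z ∂μ, 0 < z.2 := Measure.quasiMeasurePreserving_snd.ae (ae_mu2 a J V V')
    exact e1.and e2
  set W : ℝ × ℝ → ℝ := fun z => if 0 < z.1 ∧ 0 < z.2 then z.1 + z.2 else 1 with hWdef
  have hW : Measurable W := by
    refine Measurable.ite ?_ (measurable_fst.add measurable_snd) measurable_const
    exact (measurableSet_lt measurable_const measurable_fst).inter
      (measurableSet_lt measurable_const measurable_snd)
  have hWpos : ∀ z, 0 < W z := by
    intro z
    simp only [hWdef]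
    split_ifs with h
    · linarith [h.1, h.2]
    · exact one_pos
  -- integrals of the cut off
  obtain ⟨i1, p1, b1⟩ := integrable_of_lintegral (measurable_ph R)
    ((ae_mu1 a).mono fun w hw => ph_nonneg hR hw) (by positivity) (lintegral_ph_mu1 ha ha1 hR)
  obtain ⟨i2, p2, b2⟩ := integrable_of_lintegral (measurable_ph R)
    ((ae_mu2 a J V V').mono fun w hw => ph_nonneg hR hw) (by positivity)
    (lintegral_ph_mu2 ha ha1 hJ0 hV hle hlog hR)
  have i3 : Integrable (fun z : ℝ × ℝ => ph R z.1 * ph R z.2) μ := i1.mul_prod i2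
  have hint : Integrable (fun z => min 1 ((W z) ^ 2)⁻¹) μ := by
    refine i3.mono' (measurable_const.min (hW.pow_const 2).inv).aestronglyMeasurable ?_
    filter_upwards [haeμ] with z hz
    have hWz : W z = z.1 + z.2 := if_pos hz
    have hzz : 0 < z.1 + z.2 := by linarith [hz.1, hz.2]
    rw [Real.norm_of_nonneg (by have := hWpos z; positivity), hWz]
    refine le_trans ?_ (ph_mul hR hz.1 hz.2)
    refine min_le_min le_rfl ?_
    rw [← one_div]
    gcongr
    nlinarith
  have hmain := lb_general μ W hW hWpos hint x hx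
  -- the error term
  have herr : ∫ z, min (N : ℝ) ((N : ℝ) ^ 2 / (2 * (W z) ^ 2)) ∂μ ≤
      ((Real.Gamma a)⁻¹ ^ 2 * AA a * (1 / a ^ 2 + 1 / a * AA a)) / J * (N : ℝ) ^ (1 + a) := by
    have e1 : ∫ z, min (N : ℝ) ((N : ℝ) ^ 2 / (2 * (W z) ^ 2)) ∂μ ≤
        ∫ z, (N : ℝ) * (ph R z.1 * ph R z.2) ∂μ := by
      refine integral_mono_of_nonneg ?_ (i3.const_mul _) ?_
      · refine Filter.Eventually.of_forall fun z => ?_
        have := hWpos z
        change 0 ≤ min (N : ℝ) ((N : ℝ) ^ 2 / (2 * (W z) ^ 2))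
        positivity
      · filter_upwards [haeμ] with z hz
        have hWz : W z = z.1 + z.2 := if_pos hz
        have hzz : 0 < z.1 + z.2 := by linarith [hz.1, hz.2]
        rw [hWz]
        have e2 := ph_mul hR hz.1 hz.2
        rw [hRR] at e2
        calc min (N : ℝ) ((N : ℝ) ^ 2 / (2 * (z.1 + z.2) ^ 2)) ≤
            (N : ℝ) * min 1 ((N : ℝ) / (z.1 + z.2) ^ 2) := by
              rw [mul_min_of_nonneg _ _ (by positivity), mul_one]
              refine min_le_min le_rfl ?_
              rw [mul_div_assoc', ← pow_two]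
              gcongr
              nlinarith [sq_nonneg (z.1 + z.2)]
          _ ≤ _ := by gcongr
    rw [integral_const_mul, hμ, integral_prod_mul] at e1
    refine e1.trans ?_
    have e3 : V' ^ a ≤ R ^ a * (1 / (a * J)) := by
      rw [hV'def, Real.mul_rpow hR.le (Real.exp_pos _).le, ← Real.exp_mul]
      gcongr
      have e4 : a * J + 1 ≤ Real.exp (a * J) := Real.add_one_le_exp _
      have e5 : 0 < a * J := by positivity
      have e6 : -J * a = -(a * J) := by ring
      rw [e6, Real.exp_neg, ← one_div]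
      gcongr
      linarith
    have e7 : (N : ℝ) ^ (1 + a) = N * (R ^ a * R ^ a) := by
      rw [Real.rpow_add (by linarith), Real.rpow_one, ← Real.mul_rpow hR.le hR.le, ← pow_two, hRR]
    calc (N : ℝ) * ((∫ w, ph R w ∂(mu1 a)) * ∫ w, ph R w ∂(mu2 a J V V')) ≤
        (N : ℝ) * (((Real.Gamma a)⁻¹ * (R ^ a * AA a)) *
          ((Real.Gamma a)⁻¹ * (V' ^ a / a + 1 / a / J * (R ^ a * AA a)))) := by
          gcongr
      _ ≤ (N : ℝ) * (((Real.Gamma a)⁻¹ * (R ^ a * AA a)) *
          ((Real.Gamma a)⁻¹ * ((R ^ a * (1 / (a * J))) / a + 1 / a / J * (R ^ a * AA a)))) := by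
          gcongr
      _ = _ := by
          rw [e7]
          field_simp
  -- the kernel
  have hker : ∀ r : ℝ, 0 < r → ∫ z, Real.exp (-W z * r) ∂μ =
      (1 + 1 / a / J) * K s r - K s r * HJ J (R * r) := by
    intro r hr
    have e1 : ∫ z, Real.exp (-W z * r) ∂μ = ∫ z, Real.exp (-z.1 * r) * Real.exp (-z.2 * r) ∂μ := by
      refine integral_congr_ae ?_
      filter_upwards [haeμ] with z hz
      have hWz : W z = z.1 + z.2 := if_pos hz
      rw [hWz, ← Real.exp_add]
      congr 1
      ring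
    rw [e1, hμ, integral_prod_mul (fun v => Real.exp (-v * r)) (fun w => Real.exp (-w * r)),
      laplace_mu1 ha hr, laplace_mu2 ha hJ0 hR hr]
    have e2 : K s r = r ^ (-a) * r ^ (-a) := by
      rw [K, ← Real.rpow_add hr]
      congr 1
      rw [ha_def]
      ring
    rw [e2]
    ring
  have hPS : PS x (fun r => ∫ z, Real.exp (-W z * r) ∂μ) =
      (1 + 1 / a / J) * PS x (K s) - PS x (fun r => K s r * HJ J (R * r)) := by
    unfold PS
    rw [Finset.mul_sum, ← Finset.sum_sub_distrib]
    refine Finset.sum_congr rfl fun p hp => ?_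
    have hne : p.1 ≠ p.2 := (Finset.mem_offDiag.1 hp).2.2
    have hpos : 0 < ‖x p.1 - x p.2‖ := by
      rw [norm_pos_iff, sub_ne_zero]
      exact fun h => hne (hx.1 h)
    exact hker _ hpos
  -- integrability of the background
  have hi1 : IntegrableOn (fun r : ℝ => K s r * (r / 2)) (Ioc 0 2) := by
    have e1 : IntervalIntegrable (fun r : ℝ => r ^ (1 - s)) volume 0 2 :=
      intervalIntegral.intervalIntegrable_rpow' (by linarith)
    have e2 : IntegrableOn (fun r : ℝ => 1 / 2 * r ^ (1 - s)) (Ioc 0 2) :=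
      ((intervalIntegrable_iff_integrableOn_Ioc_of_le (by norm_num)).1 e1).const_mul (1 / 2 : ℝ)
    refine e2.congr_fun ?_ measurableSet_Ioc
    intro r hr
    have hr0 : 0 < r := hr.1
    change 1 / 2 * r ^ (1 - s) = K s r * (r / 2)
    have : r ^ (1 - s) = r ^ (-s) * r := by
      rw [← Real.rpow_add_one hr0.ne']
      congr 1
      ring
    rw [this, K]
    ring
  have hi2 : IntegrableOn (fun r : ℝ => K s r * HJ J (R * r) * (r / 2)) (Ioc 0 2) := by
    have hmH := measurable_HJ J
    refine Integrable.mono' hi1 ?_ ?_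
    · refine Measurable.aestronglyMeasurable ?_
      unfold K
      have : Measurable (fun r : ℝ => HJ J (R * r)) := hmH.comp (measurable_const_mul R)
      fun_prop
    · refine (ae_restrict_iff' measurableSet_Ioc).2 (Filter.Eventually.of_forall fun r hr => ?_)
      have hr0 : 0 < r := hr.1
      have hK : 0 ≤ K s r := Real.rpow_nonneg hr0.le _
      have hH0 : 0 ≤ HJ J (R * r) := HJ_nonneg hJ0
      have hH1 : HJ J (R * r) ≤ 1 := HJ_le_one hJ0 (by positivity)
      rw [Real.norm_of_nonneg (by positivity)]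
      have : K s r * HJ J (R * r) ≤ K s r * 1 := by gcongr
      rw [mul_one] at this
      gcongr
  have hbg : bg (fun r => ∫ z, Real.exp (-W z * r) ∂μ) =
      (1 + 1 / a / J) * Cc s - bg (fun r => K s r * HJ J (R * r)) := by
    rw [← bg_K h0 h2]
    unfold bg
    rw [intervalIntegral.integral_of_le (by norm_num), intervalIntegral.integral_of_le (by norm_num),
      intervalIntegral.integral_of_le (by norm_num), ← integral_const_mul, ← integral_sub
      (hi1.const_mul _) hi2]
    refine setIntegral_congr_fun measurableSet_Ioc fun r hr => ?_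
    change (∫ z, Real.exp (-W z * r) ∂μ) * (r / 2) = _
    rw [hker r hr.1]
    ring
  rw [hPS, hbg] at hmain
  have hfin := hmain.trans herr
  linarith [hfin]

end Pool.Agent.Helper35.RZ
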